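import Mathlib
import Pool.Agent.Results.MP_600e55_nt.SymbolPartitions
import Pool.Agent.V7H55.FP.All2

set_option autoImplicit false

/-! # MP_600e55_nt: free product decompositions of maximal pro-2 Galois groups

Let `F` be a field of characteristic not two such that `F*/F*²` is finite, and let `G` be the Galois
group of the maximal 2-extension `F(2)`. The local groups of `F` are the groups `(1 + m) F*²`, where
`m` is the maximal ideal of a valuation ring `O` with `2 ∈ O*` and `O* F*² ≠ F*`, and the groups of the
positive elements of the orderings of `F`. Let `T` be the group generated by `F*²` and the elements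
`x` such that, for a minimal local group `B`, the quaternion algebras `(x, c)`, `c ∈ B`, split.

1. The following are equivalent:
   * the only Steinberg symbol `F* × F* → ℤ/2` which vanishes on `T × F*` is zero;
   * `G` is the free pro-2 product of finitely many closed subgroups, each of which is isomorphic to
     `ℤ_2`, or of order two, or the decomposition group, with nontrivial inertia, of a valuation of
     `F(2)` whose residue characteristic is not two.
2. If these conditions hold, then the conclusion of Q1 holds.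
3. The radical `R = {x : c(x,y) = 0 for all y}` of a nonzero Steinberg symbol `c` which vanishes on
   `T × F*` has index at least 8, and at least 16 if `c(-1,-1) = 0`. So the conditions of 1 hold if
   `[F* : T] ≤ 4`, and if `[F* : T] = 8` and `-1` belongs to `T` or is a sum of two squares, as in
   positive characteristic. (The Hilbert symbols of `ℚ_2` and `ℚ_2(i)`, where `T = F*²`, show that this
   is best possible.)
4. Without any condition on `T`: for every minimal local group `B` with `[F* : B] ≠ 2` or `-1 ∉ B`
   there is a closed subgroup `D_B` of `G`, a decomposition group as in 1 or a group of order two, such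
   that, for its fixed field `E`, the map `F* → E*/E*²` is onto with kernel `B`, and the closed subgroup
   of `G` generated by these groups `D_B` is their free pro-2 product.

Outline. By the results of the file `OrthogonalFactorsH55` the minimal local groups `B_i` (except those
of index two which contain `-1`) belong to closed subgroups `D_i` of `G` whose fixed fields `E_i` satisfy
`E_i*/E_i*² = F*/B_i`, the map `F* → ∏ F*/B_i` is onto, and, if `T` has no symbols, a quaternion algebra
over `F` splits if it splits over all `E_i`. These two properties (with the `E_i` replaced by the fields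
`M g(E_i)`, `g ∈ G`) are inherited by every finite extension `M` of `F` in `F(2)`: for a quadratic
extension `L = M(√a)` one applies the local-global principle for the isotropy of quadratic forms over
`M` (it follows from that for quaternion algebras by approximation) to the transfer of the pure
quaternion form, of dimension 6, and to the forms `⟨f, h, -fh, -a⟩`. Let `P → Q` be a surjective
homomorphism of finite 2-groups with kernel of order two and `G → Q` a continuous homomorphism which
can be lifted to `P` on all `D_i`. If it can be lifted on the open subgroup `Gal(F(2)/M(√a))` then the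
obstruction on `Gal(F(2)/M)` is the class of a quaternion algebra `(a, b)` over `M`; it splits locally,
hence splits. So `G → Q` lifts. A dual basis of `⋂ B_i / F*²` yields the factors `ℤ_2`: an element of
finite order would belong to an ordering. For the converse, the universal property for groups of order
2 and 8 gives the decomposition of `F*/F*²` and of the norm groups, hence of all symbols; the kernel of
`F* → E*/E*²` for the fixed field `E` of a factor contains a local group, or the factor is `ℤ_2` and has
no symbols. -/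

namespace Pool.Agent.Results.MP_600e55_nt.FreeProductsH55

open Pool.Agent.Results.MP_600e55_nt.SymbolPartitions (IsMaximalPExtension IsFreeProduct
  ConclusionOfQ1)
open Pool.Agent.V7H55.ET (Sym Adm perp mem_perp)
open Pool.Agent.V7H55.ET2 (LG MG IsCone mem_nm2)
open Pool.Agent.V7H55.FP

/-- the group of squares of `F*` -/
def squares (F : Type) [Field F] : Subgroup Fˣ := (powMonoidHom 2 : Fˣ →* Fˣ).range

/-- `2` is a unit of `O` and `O* F*² ≠ F*` -/
structure IsAdmissible {F : Type} [Field F] (O : ValuationSubring F) : Prop where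
  inv_mem : (2 : F)⁻¹ ∈ O
  ne_top : O.unitGroup ⊔ squares F ≠ ⊤

/-- `P` is the group of the positive elements of an ordering of the field `F` -/
def IsPositiveCone {F : Type} [Field F] (P : Subgroup Fˣ) : Prop :=
  ∃ (_ : LinearOrder F) (_ : IsStrictOrderedRing F), ∀ x : Fˣ, x ∈ P ↔ (0 : F) < x

/-- the local groups: the groups `(1 + m) F*²`, `O` admissible with maximal ideal `m`, and the groups
of the positive elements of the orderings of `F` -/
def localGroups (F : Type) [Field F] : Set (Subgroup Fˣ) :=
  {B | (∃ O : ValuationSubring F, IsAdmissible O ∧ O.principalUnitGroup ⊔ squares F = B) ∨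
    IsPositiveCone B}

/-- the minimal local groups -/
def minimalGroups (F : Type) [Field F] : Set (Subgroup Fˣ) :=
  {B | B ∈ localGroups F ∧ ∀ B' ∈ localGroups F, B' ≤ B → B' = B}

/-- the group generated by the squares and, for all minimal local groups `B`, the elements which are
of the form `u² - c v²` for all `c ∈ B` -/
def remainder (F : Type) [Field F] : Subgroup Fˣ :=
  Subgroup.closure {x | x ∈ squares F ∨
    ∃ B ∈ minimalGroups F, ∀ c ∈ B, ∃ u v : F, (x : F) = u ^ 2 - c * v ^ 2}

/-- the Steinberg symbols on `F` with values in `ℤ/2` which vanish on `T × F*`: the bimultiplicative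
functions `c` with `c(x,y) = 0` if `x + y = 1` and `c(x,y) = 0` if `x ∈ T` -/
def symbols {F : Type} [Field F] (T : Subgroup Fˣ) : Set (Fˣ → Fˣ → ZMod 2) :=
  {c | (∀ a b x : Fˣ, c (a * b) x = c a x + c b x) ∧
    (∀ x a b : Fˣ, c x (a * b) = c x a + c x b) ∧ (∀ x y : Fˣ, (x : F) + y = 1 → c x y = 0) ∧
    ∀ x ∈ T, ∀ y, c x y = 0}

/-- `H` is the decomposition group in `Gal(K/F)` of a valuation `w` of `K` with `w(2) = 1` (the
residue characteristic is not two), and the inertia group is not trivial -/
def IsTameDecompositionGroup {F : Type} [Field F] {K : IntermediateField F (AlgebraicClosure F)}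
    (H : Subgroup (↥K ≃ₐ[F] ↥K)) : Prop :=
  ∃ (Γ : Type) (_ : LinearOrderedCommGroupWithZero Γ) (w : Valuation K Γ),
    (∀ σ : ↥K ≃ₐ[F] ↥K, σ ∈ H ↔ ∀ x : ↥K, (w (σ x) ≤ 1 ↔ w x ≤ 1)) ∧ w 2 = 1 ∧
    ∃ σ ∈ H, σ ≠ 1 ∧ ∀ x : ↥K, w x ≤ 1 → w (σ x - x) < 1

/-- `Gal(K/F)` is the free pro-2 product of finitely many closed subgroups which are isomorphic to
`ℤ_2`, or tame decomposition groups, or of order two -/
def IsTameFreeProduct {F : Type} [Field F] (K : IntermediateField F (AlgebraicClosure F)) : Prop :=
  ∃ (n : ℕ) (H : Fin n → Subgroup (↥K ≃ₐ[F] ↥K)),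
    (∀ i, IsClosed (H i : Set (↥K ≃ₐ[F] ↥K))) ∧ IsFreeProduct 2 H ∧
    ∀ i, Nonempty (H i ≃ₜ* Multiplicative (PadicInt 2)) ∨ IsTameDecompositionGroup (H i) ∨
      Nat.card (H i) = 2

/-- `D` is closed, and a tame decomposition group or of order two; for its fixed field `E` the map
`F* → E*/E*²` is onto with kernel `B` -/
structure IsLocalFactor {F : Type} [Field F] {K : IntermediateField F (AlgebraicClosure F)}
    (B : Subgroup Fˣ) (D : Subgroup (↥K ≃ₐ[F] ↥K)) : Prop where
  isClosed : IsClosed (D : Set (↥K ≃ₐ[F] ↥K))
  type : IsTameDecompositionGroup D ∨ Nat.card D = 2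
  onto : ∀ x : K, (∀ σ ∈ D, σ x = x) → x ≠ 0 →
    ∃ (f : Fˣ) (e : K), (∀ σ ∈ D, σ e = e) ∧ x = algebraMap F K f * e ^ 2
  kernel : ∀ f : Fˣ, f ∈ B ↔ ∃ e : K, (∀ σ ∈ D, σ e = e) ∧ algebraMap F K f = e ^ 2

theorem result (F : Type) [Field F] (h2 : (2 : F) ≠ 0) (hfin : (squares F).index ≠ 0) :
    -- the equivalence
    (∀ K : IntermediateField F (AlgebraicClosure F), IsMaximalPExtension 2 K →
      ((∀ c ∈ symbols (remainder F), c = 0) ↔ IsTameFreeProduct K)) ∧
    -- the conclusion of Q1
    ((∀ c ∈ symbols (remainder F), c = 0) →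
      ∀ K : IntermediateField F (AlgebraicClosure F), IsMaximalPExtension 2 K →
        ConclusionOfQ1 2 K) ∧
    -- the radical of a symbol modulo `T`
    (∀ c ∈ symbols (remainder F), c ≠ 0 → ∀ R : Subgroup Fˣ, (∀ x, x ∈ R ↔ ∀ y, c x y = 0) →
      8 ≤ R.index ∧ (c (-1) (-1) = 0 → 16 ≤ R.index)) ∧
    -- small remainders
    ((remainder F).index ≤ 4 ∨
        ((remainder F).index ≤ 8 ∧ (-1 ∈ remainder F ∨ ∃ u v : F, -1 = u ^ 2 + v ^ 2)) →
      ∀ c ∈ symbols (remainder F), c = 0) ∧
    -- the subgroup generated by the local factors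
    (∀ K : IntermediateField F (AlgebraicClosure F), IsMaximalPExtension 2 K →
      ∃ (n : ℕ) (B : Fin n → Subgroup Fˣ) (D : Fin n → Subgroup (↥K ≃ₐ[F] ↥K)),
        Function.Injective B ∧
        Set.range B = {C | C ∈ minimalGroups F ∧ (C.index ≠ 2 ∨ -1 ∉ C)} ∧
        (∀ i, IsLocalFactor (B i) (D i)) ∧
        IsFreeProduct 2 fun i => (D i).subgroupOf (⨆ j, D j).topologicalClosure) := by
  have hfact : Fact (Nat.Prime 2) := ⟨Nat.prime_two⟩
  have hζ : IsPrimitiveRoot (-1 : F) 2 := by
    refine IsPrimitiveRoot.mk_of_lt _ two_pos (by ring) ?_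
    intro l hl0 hl2
    have : l = 1 := by omega
    subst this
    rw [pow_one]
    intro h
    apply h2
    linear_combination -h
  have hadm : ∀ O : ValuationSubring F, IsAdmissible O ↔ Adm 2 (squares F) O :=
    fun O => ⟨fun h => ⟨by exact_mod_cast h.1, h.2⟩, fun h => ⟨by exact_mod_cast h.inv_mem, h.2⟩⟩
  have hLG : ∀ B, B ∈ localGroups F ↔ B ∈ LG F 2 := by
    intro B
    constructor
    · rintro (⟨O, h1, rfl⟩ | h)
      · exact Or.inl ⟨O, (hadm O).1 h1, rfl⟩
      · exact Or.inr ⟨rfl, h⟩
    · rintro (⟨O, h1, rfl⟩ | h)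
      · exact Or.inl ⟨O, (hadm O).2 h1, rfl⟩
      · exact Or.inr h.2
  have hMG : ∀ B, B ∈ minimalGroups F ↔ B ∈ MG F 2 := by
    intro B
    constructor
    · rintro ⟨h1, h3⟩
      exact ⟨(hLG B).1 h1, fun B' h4 h5 => h3 B' ((hLG B').2 h4) h5⟩
    · rintro ⟨h1, h3⟩
      exact ⟨(hLG B).2 h1, fun B' h4 h5 => h3 B' ((hLG B').1 h4) h5⟩
  set s : Finset (Subgroup Fˣ) := (Pool.Agent.V7H55.ET2.finite_MG (F := F) (p := 2) hfin).toFinset
    with hs
  have hsB : ∀ B, B ∈ s ↔ B ∈ MG F 2 := fun B => by rw [hs, Set.Finite.mem_toFinset]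
  -- orthogonal elements
  have horth : ∀ (B : Subgroup Fˣ) (x : Fˣ), (∀ c ∈ B, ∃ u v : F, (x : F) = u ^ 2 - c * v ^ 2) ↔
      x ∈ perp 2 B := by
    intro B x
    rw [mem_perp]
    constructor
    · intro h c hc _
      exact mem_nm2.2 (h c hc)
    · intro h c hc
      by_cases hcs : c ∈ squares F
      · obtain ⟨g, rfl⟩ := hcs
        have hg := g.ne_zero
        refine ⟨(1 + x) / 2, (x - 1) / (2 * g), ?_⟩
        change (x : F) = _ - ((g ^ 2 : Fˣ) : F) * _
        rw [Units.val_pow_eq_pow_val]
        field_simp
        ring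
      · exact mem_nm2.1 (h c hc hcs)
  have hT : remainder F = Pool.Agent.Y920.EP.pwG F 2 ⊔ ⨆ B ∈ s, perp 2 B := by
    apply le_antisymm
    · refine (Subgroup.closure_le _).2 ?_
      rintro x (hx | ⟨B, hB, hx⟩)
      · exact Subgroup.mem_sup_left hx
      · refine Subgroup.mem_sup_right ?_
        exact (le_iSup₂_of_le B ((hsB B).2 ((hMG B).1 hB)) le_rfl : perp 2 B ≤ _)
          ((horth B x).1 hx)
    · refine sup_le (fun x hx => Subgroup.subset_closure (Or.inl hx)) (iSup₂_le fun B hB x hx => ?_)
      exact Subgroup.subset_closure (Or.inr ⟨B, (hMG B).2 ((hsB B).1 hB), (horth B x).2 hx⟩)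
  have hperp : ∀ B ∈ MG F 2, perp 2 B ≤ remainder F := fun B hB => by
    rw [hT]
    exact le_sup_of_le_right (le_iSup₂_of_le B ((hsB B).2 hB) le_rfl)
  have hpT : Pool.Agent.Y920.EP.pwG F 2 ≤ remainder F := by
    rw [hT]
    exact le_sup_left
  have hfree : (∀ c ∈ symbols (remainder F), c = 0) →
      ∀ K : IntermediateField F (AlgebraicClosure F), IsMaximalPExtension 2 K →
      IsTameFreeProduct K := by
    intro h K hK
    obtain ⟨m, H, h1, h3, h4⟩ := all_main hζ hfin s hsB (fun e he => h e (by rw [hT]; exact he)) hK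
    refine ⟨m, H, h1, h3, fun i => ?_⟩
    rcases h4 i with h5 | ⟨B, hB, h5⟩
    · exact Or.inl h5
    · exact Or.inr h5.type
  have hrad : ∀ c ∈ symbols (remainder F), c ≠ 0 → ∀ R : Subgroup Fˣ,
      (∀ x, x ∈ R ↔ ∀ y, c x y = 0) → 8 ≤ R.index ∧ (c (-1) (-1) = 0 → 16 ≤ R.index) :=
    fun c hc hne R hR => all_rad' h2 hfin hpT
      (Pool.Agent.V7H55.ET2.rest_not_adm' Nat.prime_two hζ hfin hpT hperp)
      (fun P hP => Pool.Agent.V7H55.ET2.rest_not_cone hζ hfin hperp hP) hc hne hR
  refine ⟨fun K hK => ⟨fun h => hfree h K hK, ?_⟩, ?_, hrad, ?_, ?_⟩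
  · rintro ⟨m, H, h1, h3, h4⟩ c hc
    exact all_conv hζ hfin hperp hK H h1 h3 h4 hc
  · intro h K hK
    obtain ⟨m, H, h1, h3, h4⟩ := hfree h K hK
    refine ⟨m, H, h1, h3, fun i => ?_⟩
    rcases h4 i with h5 | ⟨Γ, hΓ, w, h5, -, h6⟩ | h5
    · exact Or.inl h5
    · exact Or.inr (Or.inl ⟨Γ, hΓ, w, h5, h6⟩)
    · exact Or.inr (Or.inr ⟨rfl, h5⟩)
  · intro h c hc
    by_contra hne
    let R : Subgroup Fˣ :=
      { carrier := {x | ∀ y, c x y = 0}
        mul_mem' := fun {a b} ha hb y => by rw [hc.1, ha y, hb y, add_zero]
        one_mem' := fun y => hc.2.2.2 1 (one_mem _) y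
        inv_mem' := fun {a} ha y => by
          have h3 := hc.1 a a⁻¹ y
          rw [mul_inv_cancel, hc.2.2.2 1 (one_mem _) y, ha y, zero_add] at h3
          exact h3.symm }
    have hTR : remainder F ≤ R := fun x hx y => hc.2.2.2 x hx y
    obtain ⟨h8, h16⟩ := hrad c hc hne R fun x => Iff.rfl
    have hT0 : (remainder F).index ≠ 0 := by
      intro h0
      have h3 := Subgroup.index_dvd_of_le hpT
      rw [h0, Nat.zero_dvd] at h3
      exact hfin h3
    have hle : R.index ≤ (remainder F).index :=
      Nat.le_of_dvd (Nat.pos_of_ne_zero hT0) (Subgroup.index_dvd_of_le hTR)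
    rcases h with h | ⟨h, hneg⟩
    · omega
    · have h0 : c (-1) (-1) = 0 := by
        rcases hneg with hneg | ⟨u, v, huv⟩
        · exact hc.2.2.2 _ hneg _
        · have hsq : ∀ u : Fˣ, u ^ 2 ∈ remainder F := fun u => hpT ⟨u, rfl⟩
          by_cases hu : u = 0
          · by_cases hv : v = 0
            · rw [hu, hv] at huv
              exact absurd huv (by simp)
            · refine hc.2.2.2 _ ?_ _
              have h3 : (-1 : Fˣ) = Units.mk0 v hv ^ 2 := by
                apply Units.ext
                rw [Units.val_neg, Units.val_one, Units.val_pow_eq_pow_val, Units.val_mk0]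
                linear_combination huv + u * hu
              rw [h3]
              exact hsq _
          · by_cases hv : v = 0
            · refine hc.2.2.2 _ ?_ _
              have h3 : (-1 : Fˣ) = Units.mk0 u hu ^ 2 := by
                apply Units.ext
                rw [Units.val_neg, Units.val_one, Units.val_pow_eq_pow_val, Units.val_mk0]
                linear_combination huv + v * hv
              rw [h3]
              exact hsq _
            · have h3 : c (-1 * Units.mk0 u hu ^ 2) (-1 * Units.mk0 v hv ^ 2) = 0 := by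
                refine hc.2.2.1 _ _ ?_
                rw [Units.val_mul, Units.val_mul, Units.val_pow_eq_pow_val,
                  Units.val_pow_eq_pow_val, Units.val_neg, Units.val_one, Units.val_mk0,
                  Units.val_mk0]
                linear_combination huv
              have h4 : c (-1) (Units.mk0 v hv ^ 2) = 0 := by
                rw [pow_two, hc.2.1]
                exact CharTwo.add_self_eq_zero _
              rw [hc.1, hc.2.1, hc.2.2.2 _ (hsq _), h4, add_zero, add_zero] at h3
              exact h3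
      have := h16 h0
      omega
  · intro K hK
    obtain ⟨n, B, D, h1, h3, h4, h5⟩ := all_sub hζ hfin hK
    refine ⟨n, B, D, h1, ?_, fun i => ⟨(h4 i).closed, (h4 i).type, ?_, ?_⟩, h5⟩
    · ext C
      rw [Set.mem_range, h3 C, ← hMG]
      rfl
    · intro x hx hx0
      obtain ⟨f, e, he, -, hfe⟩ := (h4 i).rng x hx hx0
      exact ⟨f, e, he, hfe⟩
    · intro f
      rw [← (h4 i).ker f]
      constructor
      · rintro ⟨e, he, hfe⟩
        exact ⟨e, he, hfe.symm⟩
      · rintro ⟨e, he, hfe⟩
        exact ⟨e, he, hfe.symm⟩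

end Pool.Agent.Results.MP_600e55_nt.FreeProductsH55
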