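import Mathlib
import Pool.Agent.V7H42.KR.Inf
import Pool.Agent.V7H42.KR.Chp
import Pool.Agent.V7H72.KR.NLIFT
import Pool.Agent.V7H79.KR.MLE
import Pool.Agent.V7H42.K2.Conv
import Pool.Agent.V7H42.K2.Back

set_option autoImplicit false

/-! # MP_600e55_nt: isolated subgroups of the norm relation

By helper42; the proof uses NonrigidGroupH79 (helper42 and helper79), a lemma of helper79 (MLE) and
lemmas of helper33, helper51 and helper72, and for `p = 2` four theorems of the starting point.

Let `p` be a prime, `F` a field that contains a primitive `p`-th root of unity, and `T = F*^p`; the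
group `F*/T` may be infinite. Let `±T` be the union of `T` and `-T`, so `±T = T` unless `p = 2` and
`-1` is not a square. For `a` in `F*` outside `T` let `N(a)` be the norm group of the field
`F(a^(1/p))`; so `b ∈ N(a)` if and only if the cup product of the classes of `a` and `b` in
`H^1(F, Z/p)` is zero. Call a subgroup `H` of `F*` isolated if it contains `T` and `N(h) ⊆ H` for
all `h` in `H` outside `T`. An element `x` is nonrigid if its class contains some `y` such that `y`,
`1 - y` and `-(1 - y)/y` are not in `T` (and not zero).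

* Classification: a subgroup `H` different from `T` is isolated if and only if it contains `±T` and
  either contains all nonrigid elements, or contains no nonrigid element outside `±T` and, if `-1` is
  not in `T`, contains `N(-1)`. (So if `-1` is in `T`: all or none of the nonrigid elements.)
* If there is an isolated subgroup different from `F*` and not contained in `±T`, then `F` has a
  valuation ring `O` with `1 + m ⊆ T`, `1/p ∈ O` and `O* T ≠ F*`; so the maximal pro-`p` Galois group
  is a decomposition group with nontrivial inertia, and the conclusion of Q1 holds.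
* Conversely, if there is such a ring and the index of `±T` in `F*` is not `p`, then there is an
  isolated subgroup different from `F*` and not contained in `±T`. (If the index of `±T` is `p`, then
  `F*` is the only isolated subgroup not contained in `±T`.)

So the groups of type (ii) (residue characteristic different from `p`) are recognised by the cup
product: a single proper subgroup which is closed under the relation `χ ∪ ψ = 0` is enough. For
example, if `-1` is in `T`, let `H = N(x)` where `N(b) ⊆ N(x)` for all `b` in `N(x)` outside `T`, or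
where `N(x)` is as small as possible, that is generated by `x` and `T`, and `F*/T` is not cyclic. If
`-1` is not in `T` then the group `±T` has to be excluded: it is isolated if the Galois group is the
free product of three groups of order two, and there is no such ring.

Outline, if `-1` is in `T`. By NonrigidGroupH79 there is a valuation ring `O` with `1 + m ⊆ T` such
that `O* T` consists of the nonrigid elements and `T` (the case `p = 2` without nonrigid elements is
easy). For `b` outside `O* T` the group `N(b)` is generated by `b` and `T`, and so `N(h) ⊆ O* T` for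
`h` in `O* T` outside `T`, as the relation is symmetric. This shows that a subgroup that contains all
or none of the nonrigid elements is isolated. Now let `H` be an isolated subgroup that contains some,
but not all of the nonrigid elements. Norms from `k(h^(1/p))`, where `k` is the residue field of `O`, lift to norms from
`F(h^(1/p))`. So the residues of the units in `H` are an isolated subgroup of `k*`, different from
`k*^p` and `k*`. Hence it is enough to get a contradiction in the following case, for which we write
`F` again: all elements outside `T` are nonrigid, and `H` is isolated, different from `T` and `F*`.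

(a) Sums of elements of `H` in different classes modulo `T` are in `H`. If `w` is not in `H` then
`1 + w` is in `T` or not in `H`. For `x` in `H` let `I_x` be the set of the `w` outside `H` such that
`(x + w)/x ∈ T`; write `x ≤ y` if `I_x ⊆ I_y`.

(b) If `z = x + y` with `x, y` in `H` in different classes, then `x ≤ z` and `y ≤ z`: for `w` in `I_x`
we have `x + w = x'` with `x'/x ∈ T`, and `z + w = x' + y` is in `H`, so `w` is in `I_z`. Let
`r + s = 1` with `r` in `H` nonrigid. Then `r, s ∈ H` and `1 ≤ r ≤ 1`, `1 ≤ s ≤ 1`, `1 ≤ -1 ≤ 1`, and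
the order is linear.

(c) If `h` is small, that is `h < 1`, then `1 + h ∈ T` and `1 + h` is equivalent to `1`; if `h ∈ T`
use `1 + h = t (1 + s h/t)` with `t = 1 + r h`. Let `J` be the additive group generated by the small
elements. Then `1 + J ⊆ T`. Let `R` be the ring of the `z` with `zJ ⊆ J`. It contains the `h ≤ 1`, and
the integral closure `O'` of `R` is a valuation ring, as `z^p` or `z^(-p)` is in `R`. We have
`H ∩ O' = {h : h ≤ 1}`. Let `m` be the maximal ideal of `O'`.

(d) We have `H ∩ (1 + m) ⊆ T`: if `c = 1 + x` is in `H`, but not in `T`, then `x` is in `N(c)`, hence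
a small element of `H`. Suppose that `p` is in `m`. Then `r e^p` is not a `p`-th power modulo `m`, for
units `e`. The numbers `n < p` are in `H`, hence in `T`: if `n` is in `T`, then `n + 1` is the sum of
`1 + r` and `n - r`, and the classes of these are different. So `p - 1 - re^p` and `1 + re^p` are in `H`,
and if their sum `p` is not in `H`, then `1 - p/(1 + re^p)` is in `T`. For units `u` the condition
`1 + pu ∈ T` implies that `pu` is in `T(1 + m)`; so `(1 + re^p)/(1 + r) ∈ T(1 + m)`, which is false for
`e = r`. Therefore `p` and `pr` are small elements of `H`, and in `T(1 + m)`; so is `r`, a contradiction.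
So `1/p ∈ O'`.

(e) The ring `R` contains `T ∩ O'`, and so all `p`-th powers of elements of `O'`. By interpolation
`D p z` is in `R` for `z` in `O'`, where `u ∈ T ∩ m` and `D` is the product of the `u^(p-1) - u^k` for
`k ≤ p`, `k ≠ p - 1`. So `1 + u D p O' ⊆ 1 + J ⊆ T`. Since the `x` with `1 + x O' ⊆ T` are a prime ideal,
`u` is in it. So `1 + m ⊆ T`, and every class of `F*/T` contains a unit of `O'`.

(f) If `w` is a unit outside `H` then `1 + w` is not in `T`: as `w` is nonrigid, there are `v` in the
class of `w` and `v'` outside `T` with `v + v' = 1`; let `q = -v/w`, a unit in `T`; if `w ∈ I_1` then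
`-v = qw ∈ I_q = I_1`, so `v' = 1 - v ∈ T`, a contradiction. So the residues of the units in `H` and
zero form a subfield `L` of the residue field `k` of `O'`. It contains all `p`-th powers, and by
interpolation `L = k` if `k` is infinite, hence `H = F*`, a contradiction. If `k` is finite, then
`F*/T` is cyclic, a contradiction.

Outline, if `-1` is not in `T`; so `p = 2`. Call `b` basic if it is in `±T` or if `b` or `-b` is
nonrigid. The basic elements form a group `B` (Berman; Carson and Marshall; starting point). Let `H`
be isolated, different from `F*` and not contained in `±T`; then `-1` is in `H`, as `-h ∈ N(h)`.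

Suppose that `B` is different from `F*`. If `B = ±T` then there is a valuation ring `O` with
`1 + m ⊆ T` such that `O* T` is contained in a group that contains `B` with index at most two (Ware;
starting point), and the index of `B` in `F*` is at least four because of `H`. If `B` is not `±T` then
there is a valuation ring with `1 + m ⊆ T` and `O* T ⊆ B`. In both cases it has a coarsening with
`1/2 ∈ O` and the same properties (starting point).

Suppose that `B = F*`. Then there is a contradiction as above, with some changes. In (b) let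
`r + s = 1` with `r`, `s` in `H` outside `±T` and `-r/s` outside `T`; they exist because `H` contains a
basic element outside `±T`. In (c) for small `h` the elements `1 + h` and `-1 + h` are in `T` and
`-T`. In (d) `-x` is in `N(c)`, and `2` is the sum of `1 - re^2` and `1 + re^2`, which are in `H`. In
(f) there are `v` in the class of `w` or `-w` and `v'` with `v + v' = 1`, where `v'` and `-v'/v` are not
in `T`, and `q = -v/w` is in `T` or `-T`.

For the converse let `H = O* T` if this is not `±T`, and the group generated by `±T` and one element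
outside `±T` otherwise. In the classification one direction is elementary: if `c` is in `N(h)`, but
not in `T` or `-hT`, then `h` and `c` are nonrigid. For the other direction let `H` be isolated,
different from `T`, with a nonrigid element outside `±T` and without some other nonrigid element.
Then `B` is not `F*`, and there is a ring `O` as above with `O* T = B`. As above, the residues of the
units in `H` are an isolated subgroup of `k*`. So `k` has a valuation ring `O'` with `1 + m' ⊆ k*^2`
and `O'* k*^2 ≠ k*`, but all elements of `k*` outside `±k*^2` are basic: a contradiction. -/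

namespace Pool.Agent.Results.MP_600e55_nt.IsolatedSubgroupH42

open Pool.Agent.Y920.EP

/-- the group of `p`-th powers of `F*` -/
def powers (F : Type) [Field F] (p : ℕ) : Subgroup Fˣ := (powMonoidHom p : Fˣ →* Fˣ).range

/-- the `x` in `F*` such that `x` or `-x` is a `p`-th power -/
def signedPowers (F : Type) [Field F] (p : ℕ) : Subgroup Fˣ :=
  powers F p ⊔ Subgroup.zpowers (-1)

/-- the `x` such that `x`, `1 - y` and `-(1 - y)/y` are not `p`-th powers (and not zero) for some
`y = x c^p` -/
def nonrigid (F : Type) [Field F] (p : ℕ) : Set Fˣ :=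
  {x | x ∉ powers F p ∧ ∃ y s : Fˣ, y / x ∈ powers F p ∧ (y : F) + s = 1 ∧ s ∉ powers F p ∧
    -s / y ∉ powers F p}

open Polynomial in
/-- the norms to `F` of the units of the algebra `F[X]/(X^p - a)`: the norm group of the field
`F(a^(1/p))` if `a` is not a `p`-th power -/
noncomputable def normGroup {F : Type} [Field F] (p : ℕ) (a : Fˣ) : Subgroup Fˣ :=
  (Units.map (Algebra.norm F : AdjoinRoot (X ^ p - C (a : F)) →* F)).range

/-- `H` contains `F*^p`, and the norm group of `F(h^(1/p))` is contained in `H` for all `h` in `H`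
that are not `p`-th powers -/
def IsIsolated (p : ℕ) {F : Type} [Field F] (H : Subgroup Fˣ) : Prop :=
  powers F p ≤ H ∧ ∀ h ∈ H, h ∉ powers F p → normGroup p h ≤ H

/-- `1 + m ⊆ F*^p` for the maximal ideal `m` of `O`, the number `p` is a unit of `O`, and not every
element of `F*` is a unit of `O` times a `p`-th power -/
def IsRamified (p : ℕ) {F : Type} [Field F] (O : ValuationSubring F) : Prop :=
  (∀ x : F, x ∈ O → x⁻¹ ∉ O → ∃ t ∈ powers F p, ((t : Fˣ) : F) = 1 + x) ∧ (p : F)⁻¹ ∈ O ∧
    O.unitGroup ⊔ powers F p ≠ ⊤

/-- `K` is the compositum of the finite Galois extensions of `F` of `p`-power degree -/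
def IsMaximalPExtension (p : ℕ) {F : Type} [Field F]
    (K : IntermediateField F (AlgebraicClosure F)) : Prop :=
  K = sSup {L : IntermediateField F (AlgebraicClosure F) |
    FiniteDimensional F L ∧ IsGalois F L ∧ ∃ k : ℕ, Module.finrank F L = p ^ k}

/-- `H` is the decomposition group in `Gal(K/F)` of a valuation of `K`, and the inertia group is
not trivial -/
def IsDecompositionGroup {F : Type} [Field F] {K : IntermediateField F (AlgebraicClosure F)}
    (H : Subgroup (↥K ≃ₐ[F] ↥K)) : Prop :=
  ∃ (Γ : Type) (_ : LinearOrderedCommGroupWithZero Γ) (w : Valuation K Γ),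
    (∀ σ : ↥K ≃ₐ[F] ↥K, σ ∈ H ↔ ∀ x : ↥K, (w (σ x) ≤ 1 ↔ w x ≤ 1)) ∧
    ∃ σ ∈ H, σ ≠ 1 ∧ ∀ x : ↥K, w x ≤ 1 → w (σ x - x) < 1

/-- `G` is the free pro-`p` product of its subgroups `H i` (for a pro-`p` group `G` and closed
`H i`) -/
def IsFreeProduct (p : ℕ) {G : Type} [Group G] [TopologicalSpace G] {n : ℕ}
    (H : Fin n → Subgroup G) : Prop :=
  ∀ (P : Type) [Group P] [Finite P], (∃ k : ℕ, Nat.card P = p ^ k) →
    ∀ φ : (i : Fin n) → (H i →* P), (∀ i, IsOpen ((φ i).ker : Set (H i))) →
      ∃! ψ : G →* P, IsOpen (ψ.ker : Set G) ∧ ∀ i, ∀ x : H i, ψ (x : G) = φ i x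

/-- the conclusion of Q1: `Gal(K/F)` is the free pro-`p` product of finitely many closed subgroups
of type (i), (ii) or (iii) -/
def ConclusionOfQ1 (p : ℕ) [Fact p.Prime] {F : Type} [Field F]
    (K : IntermediateField F (AlgebraicClosure F)) : Prop :=
  ∃ (n : ℕ) (H : Fin n → Subgroup (↥K ≃ₐ[F] ↥K)),
    (∀ i, IsClosed (H i : Set (↥K ≃ₐ[F] ↥K))) ∧ IsFreeProduct p H ∧
    ∀ i, Nonempty (H i ≃ₜ* Multiplicative (PadicInt p)) ∨ IsDecompositionGroup (H i) ∨
      (p = 2 ∧ Nat.card (H i) = 2)

/-- the description of `signedPowers` -/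
theorem mem_signedPowers {F : Type} [Field F] {p : ℕ} {x : Fˣ} :
    x ∈ signedPowers F p ↔ x ∈ powers F p ∨ -x ∈ powers F p := by
  constructor
  · intro h
    rw [signedPowers, Subgroup.mem_sup] at h
    obtain ⟨y, hy, z, hz, rfl⟩ := h
    obtain ⟨k, rfl⟩ := Subgroup.mem_zpowers_iff.1 hz
    rcases Int.even_or_odd k with hk | hk
    · left
      rwa [hk.neg_one_zpow, mul_one]
    · right
      rwa [hk.neg_one_zpow, mul_neg, mul_one, neg_neg]
  · rintro (h | h)
    · exact Subgroup.mem_sup_left h
    · have h1 : x = -x * (-1) := by rw [mul_neg, mul_one, neg_neg]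
      rw [h1]
      exact mul_mem (Subgroup.mem_sup_left h) (Subgroup.mem_sup_right (Subgroup.mem_zpowers _))

theorem result (p : ℕ) [Fact p.Prime] (F : Type) [Field F] (hζ : ∃ ζ : F, IsPrimitiveRoot ζ p) :
    -- (1) the isolated subgroups
    (∀ H : Subgroup Fˣ, IsIsolated p H ↔ H = powers F p ∨ (signedPowers F p ≤ H ∧
      (nonrigid F p ⊆ H ∨ ((∀ x ∈ H, x ∈ nonrigid F p → x ∈ signedPowers F p) ∧
        ((-1 : Fˣ) ∉ powers F p → normGroup p (-1 : Fˣ) ≤ H))))) ∧
    -- (2) an isolated subgroup gives a valuation ring
    ((∃ H : Subgroup Fˣ, IsIsolated p H ∧ ¬ H ≤ signedPowers F p ∧ H ≠ ⊤) →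
      (∃ O : ValuationSubring F, IsRamified p O) ∧
      ∀ K : IntermediateField F (AlgebraicClosure F), IsMaximalPExtension p K →
        IsDecompositionGroup (⊤ : Subgroup (↥K ≃ₐ[F] ↥K)) ∧ ConclusionOfQ1 p K) ∧
    -- (3) the converse
    ((signedPowers F p).index ≠ p → (∃ O : ValuationSubring F, IsRamified p O) →
      ∃ H : Subgroup Fˣ, IsIsolated p H ∧ ¬ H ≤ signedPowers F p ∧ H ≠ ⊤) := by
  have hp : p.Prime := Fact.out
  have hpF : (p : F) ≠ 0 := by
    obtain ⟨ζ, hζ⟩ := hζ
    have : NeZero p := ⟨hp.ne_zero⟩
    exact hζ.neZero'.ne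
  have hnr : (-1 : Fˣ) ∈ powers F p → ∀ x : Fˣ, x ∈ nonrigid F p ↔
      (x : Fˣ ⧸ pwG F p) ∈ Pool.Agent.V7H42.ET.nonrigidC (pwG F p) := by
    intro hn1 x
    have hsg' : ∀ s y : Fˣ, -s / y ∈ powers F p ↔ s / y ∈ powers F p := by
      intro s y
      rw [← neg_one_mul s, mul_div_assoc]
      exact Subgroup.mul_mem_cancel_left _ hn1
    constructor
    · rintro ⟨hx, y, s, hyx, hys, hs, hsy⟩
      have hxy : y ∉ pwG F p := by
        intro h
        apply hx
        have h1 := mul_mem (inv_mem hyx) h
        rwa [inv_div, div_mul_cancel] at h1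
      refine ⟨y, s, ?_, hys, hxy, hs, fun h => hsy ((hsg' s y).2 h)⟩
      rw [eq_comm, QuotientGroup.eq, mul_comm, ← div_eq_mul_inv]
      exact hyx
    · rintro ⟨y, s, hyx, hys, hy, hs, hsy⟩
      rw [eq_comm, QuotientGroup.eq, mul_comm, ← div_eq_mul_inv] at hyx
      refine ⟨?_, y, s, hyx, hys, hs, fun h => hsy ((hsg' s y).1 h)⟩
      intro h
      apply hy
      have h1 := mul_mem hyx h
      rwa [div_mul_cancel] at h1
  have hneg : (-1 : Fˣ) ∈ powers F p → ∃ x : F, x ^ p = -1 := by
    rintro ⟨x, hx⟩
    exact ⟨x, by
      have := congrArg (fun u : Fˣ => (u : F)) hx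
      simpa using this⟩
  have htwo : (-1 : Fˣ) ∉ powers F p → p = 2 := by
    intro h
    rcases hp.eq_two_or_odd' with h1 | h1
    · exact h1
    · exact absurd ⟨-1, by simp [h1.neg_one_pow]⟩ h
  have hsg : (-1 : Fˣ) ∈ powers F p → signedPowers F p = powers F p := by
    intro h
    refine sup_eq_left.2 ?_
    rwa [Subgroup.zpowers_le]
  have hgal : ∀ O : ValuationSubring F, IsRamified p O →
      ∀ K : IntermediateField F (AlgebraicClosure F), IsMaximalPExtension p K →
        IsDecompositionGroup (⊤ : Subgroup (↥K ≃ₐ[F] ↥K)) ∧ ConclusionOfQ1 p K := by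
    rintro O ⟨hO1, hO2, hO3⟩ K hK
    have hPw : Pw p O := by
      refine ⟨hO2, hpF, fun x hx hx' => ?_⟩
      obtain ⟨t, ⟨y, rfl⟩, e⟩ := hO1 x hx hx'
      exact ⟨y, by rw [← e]; simp⟩
    have hD : DecInert F K := Pool.Agent.V7H51.NR.gal_main p hp F hζ O hPw hO3 K hK
    refine ⟨?_, efratP p F K hD⟩
    obtain ⟨Γ, hΓ, w, hw, σ, hσ, hσw⟩ := hD
    exact ⟨Γ, hΓ, w, fun τ => ⟨fun _ x => hw τ x, fun _ => trivial⟩, σ, trivial, hσ, hσw⟩
  refine ⟨?_, ?_, ?_⟩
  · intro H
    by_cases hn1 : (-1 : Fˣ) ∈ powers F p
    · have key : ∀ hTH : powers F p ≤ H, (∀ h ∈ H, h ∉ powers F p → normGroup p h ≤ H) ↔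
          (nonrigid F p ⊆ H ∨ Disjoint (nonrigid F p) H) := by
        intro hTH
        have h1 := Pool.Agent.V7H42.KR.iso_class2 Pool.Agent.V7H79.KR.t_MLE
          Pool.Agent.V7H42.KR.t_CHP Pool.Agent.V7H72.KR.t_NLIFT hp hζ (hneg hn1) H hTH
        refine h1.trans (or_congr ?_ ?_)
        · exact ⟨fun h x hx => h x ((hnr hn1 x).1 hx), fun h x hx => h ((hnr hn1 x).2 hx)⟩
        · rw [Set.disjoint_left]
          exact ⟨fun h x hx => h x ((hnr hn1 x).1 hx), fun h x hx => h ((hnr hn1 x).2 hx)⟩
      rw [hsg hn1]
      constructor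
      · rintro ⟨h1, h2⟩
        refine Or.inr ⟨h1, ((key h1).1 h2).imp_right fun h3 => ?_⟩
        exact ⟨fun x hx hx' => absurd hx (Set.disjoint_left.1 h3 hx'), fun h => absurd hn1 h⟩
      · rintro (rfl | ⟨h1, h2⟩)
        · exact ⟨le_rfl, fun h hh hh' => absurd hh hh'⟩
        · refine ⟨h1, (key h1).2 (h2.imp_right fun h3 => ?_)⟩
          rw [Set.disjoint_left]
          intro x hx hxH
          exact hx.1 (h3.1 x hxH hx)
    · obtain rfl := htwo hn1
      constructor
      · rintro ⟨h1, h2⟩
        by_cases hHT : H = powers F 2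
        · exact Or.inl hHT
        right
        obtain ⟨b, hb, hb'⟩ := SetLike.not_le_iff_exists.1 fun h => hHT (le_antisymm h h1)
        have hnH : (-1 : Fˣ) ∈ H := by
          have h3 : -b ∈ H := h2 b hb hb' (Pool.Agent.V7H42.K2.nm_sub Nat.prime_two b (-b) 0 (by
            rw [Units.val_neg]; ring))
          have h4 := mul_mem h3 (inv_mem hb)
          rwa [neg_mul, mul_inv_cancel] at h4
        have hSH : signedPowers F 2 ≤ H := by
          refine sup_le h1 ?_
          rwa [Subgroup.zpowers_le]
        refine ⟨hSH, ?_⟩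
        by_contra hcon
        rw [not_or] at hcon
        obtain ⟨h3, h4⟩ := hcon
        obtain ⟨x', hx', hxH'⟩ := Set.not_subset.1 h3
        apply h4
        refine ⟨fun x hx hxn => ?_, fun _ => h2 _ hnH hn1⟩
        by_contra hxS
        rw [mem_signedPowers, not_or] at hxS
        exact Pool.Agent.V7H42.K2.iso_dich_two (by exact_mod_cast hpF) H h1 h2 hx hxS.1 hxS.2
          hxn.2 hxH' hx'.2
      · rintro (rfl | ⟨h1, h2⟩)
        · exact ⟨le_rfl, fun h hh hh' => absurd hh hh'⟩
        · have hTH : powers F 2 ≤ H := le_sup_left.trans h1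
          refine ⟨hTH, Pool.Agent.V7H42.K2.iso_back_two H hTH
            (h1 (Subgroup.mem_sup_right (Subgroup.mem_zpowers _))) (h2.imp ?_ ?_)⟩
          · exact fun h3 x hx hx' => h3 ⟨hx, hx'⟩
          · rintro ⟨h3, h4⟩
            refine ⟨fun x hx hxT hxN => ?_, h4 hn1⟩
            exact (mem_signedPowers.1 (h3 x hx ⟨hxT, hxN⟩)).resolve_left hxT
  · rintro ⟨H, ⟨hH1, hH2⟩, hH3, hH4⟩
    have hex : ∃ O : ValuationSubring F, IsRamified p O := by
      by_cases hn1 : (-1 : Fˣ) ∈ powers F p
      · rw [hsg hn1] at hH3
        exact Pool.Agent.V7H42.KR.iso_ring2 Pool.Agent.V7H79.KR.t_MLE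
          Pool.Agent.V7H42.KR.t_CHP hp hζ (hneg hn1) H (lt_of_le_not_ge hH1 hH3) hH4 hH2
      · obtain rfl := htwo hn1
        obtain ⟨b, hb, hb'⟩ := SetLike.not_le_iff_exists.1 hH3
        rw [mem_signedPowers, not_or] at hb'
        exact Pool.Agent.V7H42.K2.iso_ring_two (by exact_mod_cast hpF) H hH1 ⟨b, hb, hb'⟩ hH4 hH2
    obtain ⟨O, hO⟩ := hex
    exact ⟨⟨O, hO⟩, hgal O hO⟩
  · rintro hidx ⟨O, hO1, hO2, hO3⟩
    by_cases hn1 : (-1 : Fˣ) ∈ powers F p
    · rw [hsg hn1] at hidx ⊢
      obtain ⟨H, h1, h2, h3⟩ := Pool.Agent.V7H42.KR.iso_conv hp hζ (hneg hn1) O hO1 hO2 hO3 hidx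
      exact ⟨H, ⟨h1.le, h3⟩, h1.not_ge, h2⟩
    · obtain rfl := htwo hn1
      obtain ⟨H, h1, h2, ⟨b, hb, hb'⟩, h3⟩ := Pool.Agent.V7H42.K2.iso_conv_two
        (by exact_mod_cast hpF) O hO1 hO2 hO3 hidx
      refine ⟨H, ⟨h1, h3⟩, fun h => ?_, h2⟩
      have h4 := mem_signedPowers.1 (h hb)
      exact h4.elim hb'.1 hb'.2

end Pool.Agent.Results.MP_600e55_nt.IsolatedSubgroupH42
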