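import Mathlib
import Pool.Agent.V7H42.ET.Fin42
import Pool.Agent.V7H51.NR.Fin
import Pool.Agent.V7H79.EU.Fin
import Pool.Agent.V7H79.EW.Card
import Pool.Agent.V7H79.EW.Two

set_option autoImplicit false

/-! # MP_600e55_nt: fields with a rigid class

By helper42 (modules `Pool.Agent.V7H42.ET`) and helper79 (modules `Pool.Agent.V7H79.EU` and
`Pool.Agent.V7H79.EW`).

Let `T` be a subgroup of `F*` which contains `-1` and all `p`-th powers; `F*/T` may be infinite. A
class of `F*/T` is not rigid if it contains some `r` such that `r`, `1 - r` and `(1 - r)/r` are not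
in `T` (and not zero). Let `ρ` be the number of these classes.

* Let `p` be odd. For every single rigid class `c ≠ 1` there is a valuation ring `O` such that `c`
  contains no unit of `O`, and an element `w` of `c` is in `O` if and only if `1 + w ∈ T`. The group `T`
  is open for this ring if `p ≠ 0` in `F`.
* If `T` is the group of `p`-th powers and `F` contains the `p`-th roots of unity, then the nonrigid
  classes and the trivial class form a group (for `p = 2` this is Berman's theorem). There is a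
  valuation ring `O` with `1 + m ⊆ F*^p` such that `O* T / T` is this group. If one nontrivial class is
  rigid then it is not the whole group, so the conclusion of Q1 holds: the maximal pro-`p` Galois
  group is a decomposition group with nontrivial inertia. So Q1 is reduced to the fields in which
  no nontrivial class is rigid.
* If `ρ` is finite (and `p` odd or `ρ > 0`), there is a valuation ring `O` with `1 + m ⊆ T` such that
  `O* T / T` is the group generated by the nonrigid classes, and the order of this group is the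
  least power of `p` above `ρ`. (For every ring with `1 + m ⊆ T` the group `O* T / T` contains the
  nonrigid classes.)
* If every set `1 + aT`, `a ∉ T`, meets at most `R` classes, then `ρ ≤ max((2R - 1)², p)`. If the norm
  groups of the fields `F(a^(1/p))` have at most `N` classes, then
  `ρ ≤ max(4 N (N - 1)/(p - 1) + 1, p)`. So Q1 holds if the norm groups have at most `p^k` classes and
  `F*/F*^p` has at least `p^(2k)` elements (`p ≥ 5`), or `3^(2k+1)` (`p = 3`), or `2^(2k+2)` (`p = 2`).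

Outline of the first and second part, `p` odd. Let `B` be the set of the elements of the rigid class
`b ≠ 1`. If `x/y` or `y/x` is in `B` the class of `x + y` is that of `x` or that of `y`; write `x > y` in the
first case.

(a) If `x > y > z` with `x, z ∈ T`, `y ∈ B` then `x - z ∈ T`: it is `(x + y) - (y + z)`, hence in
`T ∪ B`, and with `u = xz/y` it is `(x + u) - (u + z)`, hence in `T ∪ B⁻¹`.

(b) Let `P` be the set of the `w ∈ B` with `1 > w`. Then `-P = P`. Let `1 > w`, but not `1 > -w`. Then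
`2 ∈ T` by (a) and `1 > w > -1`. Call such `w` odd. The sum of two odd elements is in `B`, since
`w > -1 > -w'`. So `1 - w ∈ B` is not odd, hence `2 - w ∈ B`; the elements `(1 - w)/(1 + w)` and
(for `b⁻¹`) `-1/w` are odd, hence `1 + 3w ∈ B` and `1 + 2w ∈ T`; now `1 + w > w > 1 + 2w` and by (a)
`-w ∈ T`, a contradiction.

(c) There is no cycle `x > y > z > t > x`: by (a) and (b) the elements `x - y, y - z, z - t, t - x`
are again a cycle, and `(x - y) + (z - t) ∈ T`, `(y - z) + (t - x) ∈ B`, but the sum is `0`. So `T` is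
linearly ordered by `yP ⊆ P`; let `U` be the set of the `y ∈ T` with `yP = P`. Similarly
`1 + w (1 + x) ∈ U` for `w ∈ P` and `x` in the set `P'` that belongs to `b⁻¹`, and `1 + P ⊆ U`. So for the
additive group `J` generated by `P` we have `1 + J ⊆ U ⊆ T`.

(d) Let `R` be the ring of the `z` with `zJ ⊆ J`. For `z ∈ T` one of `z`, `1/z` is in `R`. So the
integral closure `O'` of `R` is a valuation ring, `T ∩ O' = T ∩ R` and `B ∩ O' = P`. In particular `B`
contains no unit of `O'`. Let `u ∈ P`. As `R` contains the `p`-th powers of the elements of `O'`, in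
particular the elements `(z + u^i)^p` for `z ∈ O'`, it contains `D p z`, where `D` is the product of
the `u^(p-1) - u^k`, `k ≤ p`, `k ≠ p - 1` (interpolation). Hence `1 + D p u O' ⊆ 1 + J ⊆ T`.

(e) Let `T = F*^p` and `ζ ∈ F`. If `w ∈ P` and `1 + w = z^p` then `w` is the product of the elements
`z - ζ^j`; this shows that `1/p ∈ O'`. Let `I` be the set of the `x` with `1 + x O' ⊆ T`. This is a prime
ideal of `O'`, as `x² ∈ I` implies `x ∈ I` by `1 + x = (1 + x/p)^p (1 + x² ..)`. So `P ⊆ I` by (d), the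
localisation `O''` of `O'` at `I` has no units in `B`, and `1 + I ⊆ T`. All nonrigid classes contain
units of `O''`, so `b` is not in the group generated by the nonrigid classes. The ring `O` is that of
the theorem of Ware, Arason, Elman and Jacob for this group. -/

namespace Pool.Agent.Results.MP_600e55_nt.NonrigidGroupH79

open Pool.Agent.Y920.EP

/-- the group of `p`-th powers of `F*` -/
def powers (F : Type) [Field F] (p : ℕ) : Subgroup Fˣ := (powMonoidHom p : Fˣ →* Fˣ).range

/-- the classes that are not rigid: those of the `r` such that `r`, `1 - r` and `(1 - r)/r` are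
not in `T` (and not zero) -/
def nonrigid {F : Type} [Field F] (T : Subgroup Fˣ) : Set (Fˣ ⧸ T) :=
  {c | ∃ r s : Fˣ, (r : Fˣ ⧸ T) = c ∧ (r : F) + s = 1 ∧ r ∉ T ∧ s ∉ T ∧ s / r ∉ T}

/-- the classes modulo `T` of the elements of `1 + aT` -/
def sumClasses {F : Type} [Field F] (T : Subgroup Fˣ) (a : Fˣ) : Set (Fˣ ⧸ T) :=
  {c | ∃ t ∈ T, ∃ v : Fˣ, (v : F) = 1 + a * t ∧ (v : Fˣ ⧸ T) = c}

open Polynomial in
/-- the norms to `F` of the units of the algebra `F[X]/(X^p - a)`: the norm group of the field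
`F(a^(1/p))` if `a` is not a `p`-th power -/
noncomputable def normGroup {F : Type} [Field F] (p : ℕ) (a : Fˣ) : Subgroup Fˣ :=
  (Units.map (Algebra.norm F : AdjoinRoot (X ^ p - C (a : F)) →* F)).range

/-- `1 + m ⊆ T` for the maximal ideal `m` of `O` -/
def OneUnitsIn {F : Type} [Field F] (T : Subgroup Fˣ) (O : ValuationSubring F) : Prop :=
  ∀ x : F, x ∈ O → x⁻¹ ∉ O → ∃ t ∈ T, ((t : Fˣ) : F) = 1 + x

/-- the classes modulo `T` of the units of `O` -/
def unitClasses {F : Type} [Field F] (T : Subgroup Fˣ) (O : ValuationSubring F) : Set (Fˣ ⧸ T) :=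
  {c | ∃ u ∈ O.unitGroup, ((u : Fˣ) : Fˣ ⧸ T) = c}

/-- `K` is the compositum of the finite Galois extensions of `F` of `p`-power degree -/
def IsMaximalPExtension (p : ℕ) {F : Type} [Field F]
    (K : IntermediateField F (AlgebraicClosure F)) : Prop :=
  K = sSup {L : IntermediateField F (AlgebraicClosure F) |
    FiniteDimensional F L ∧ IsGalois F L ∧ ∃ k : ℕ, Module.finrank F L = p ^ k}

/-- `H` is the decomposition group in `Gal(K/F)` of a valuation of `K`, and the inertia group is
not trivial -/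
def IsDecompositionGroup {F : Type} [Field F] {K : IntermediateField F (AlgebraicClosure F)}
    (H : Subgroup (↥K ≃ₐ[F] ↥K)) : Prop :=
  ∃ (Γ : Type) (_ : LinearOrderedCommGroupWithZero Γ) (w : Valuation K Γ),
    (∀ σ : ↥K ≃ₐ[F] ↥K, σ ∈ H ↔ ∀ x : ↥K, (w (σ x) ≤ 1 ↔ w x ≤ 1)) ∧
    ∃ σ ∈ H, σ ≠ 1 ∧ ∀ x : ↥K, w x ≤ 1 → w (σ x - x) < 1

/-- `G` is the free pro-`p` product of its subgroups `H i` (for a pro-`p` group `G` and closed
`H i`) -/
def IsFreeProduct (p : ℕ) {G : Type} [Group G] [TopologicalSpace G] {n : ℕ}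
    (H : Fin n → Subgroup G) : Prop :=
  ∀ (P : Type) [Group P] [Finite P], (∃ k : ℕ, Nat.card P = p ^ k) →
    ∀ φ : (i : Fin n) → (H i →* P), (∀ i, IsOpen ((φ i).ker : Set (H i))) →
      ∃! ψ : G →* P, IsOpen (ψ.ker : Set G) ∧ ∀ i, ∀ x : H i, ψ (x : G) = φ i x

/-- the conclusion of Q1: `Gal(K/F)` is the free pro-`p` product of finitely many closed subgroups
of type (i), (ii) or (iii) -/
def ConclusionOfQ1 (p : ℕ) [Fact p.Prime] {F : Type} [Field F]
    (K : IntermediateField F (AlgebraicClosure F)) : Prop :=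
  ∃ (n : ℕ) (H : Fin n → Subgroup (↥K ≃ₐ[F] ↥K)),
    (∀ i, IsClosed (H i : Set (↥K ≃ₐ[F] ↥K))) ∧ IsFreeProduct p H ∧
    ∀ i, Nonempty (H i ≃ₜ* Multiplicative (PadicInt p)) ∨ IsDecompositionGroup (H i) ∨
      (p = 2 ∧ Nat.card (H i) = 2)

theorem result (p : ℕ) [Fact p.Prime] (F : Type) [Field F] (T : Subgroup Fˣ)
    (hT : powers F p ≤ T) (hneg : (-1 : Fˣ) ∈ T) :
    -- (1) finitely many nonrigid classes: the valuation ring
    ((nonrigid T).Finite → (p ≠ 2 ∨ (nonrigid T).Nonempty) →
      ∃ O : ValuationSubring F, OneUnitsIn T O ∧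
        IsLeast {n : ℕ | (∃ i : ℕ, n = p ^ i) ∧ (nonrigid T).ncard < n}
          (T.relIndex (O.unitGroup ⊔ T))) ∧
    -- (2) one rigid class: a valuation ring
    (p ≠ 2 → ∀ c : Fˣ ⧸ T, c ≠ 1 → c ∉ nonrigid T → ∃ O : ValuationSubring F,
      c ∉ unitClasses T O ∧
      (∀ w : Fˣ, (w : Fˣ ⧸ T) = c → ((w : F) ∈ O ↔ ∃ t ∈ T, (t : F) = 1 + w)) ∧
      ((p : F) ≠ 0 → ∃ x : F, x ≠ 0 ∧ ∀ z ∈ O, ∃ t ∈ T, ((t : Fˣ) : F) = 1 + x * z)) ∧
    -- (3) small sum sets: few nonrigid classes
    (∀ R : ℕ, 2 ≤ R →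
      (∀ a : Fˣ, a ∉ T → (sumClasses T a).Finite ∧ (sumClasses T a).ncard ≤ R) →
      (nonrigid T).Finite ∧ (nonrigid T).ncard ≤ max ((2 * R - 1) ^ 2) p) ∧
    (T = powers F p → (∃ ζ : F, IsPrimitiveRoot ζ p) →
      -- (4) the nonrigid classes and the trivial one form the group of the classes of units
      ((∃ H : Subgroup (Fˣ ⧸ T), (H : Set (Fˣ ⧸ T)) = insert 1 (nonrigid T)) ∧
        (p ≠ 2 ∨ (nonrigid T).Nonempty → ∃ O : ValuationSubring F, OneUnitsIn T O ∧
          (p : F)⁻¹ ∈ O ∧ unitClasses T O = insert 1 (nonrigid T))) ∧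
      -- (5) the maximal pro-`p` Galois group of a field with a rigid class
      ((∃ c : Fˣ ⧸ T, c ≠ 1 ∧ c ∉ nonrigid T) → T.index ≠ 2 →
        ∀ K : IntermediateField F (AlgebraicClosure F), IsMaximalPExtension p K →
          IsDecompositionGroup (⊤ : Subgroup (↥K ≃ₐ[F] ↥K)) ∧ ConclusionOfQ1 p K) ∧
      -- (6) small norm groups: few nonrigid classes
      (∀ N : ℕ,
        (∀ a : Fˣ, a ∉ T → T.relIndex (normGroup p a) ≠ 0 ∧ T.relIndex (normGroup p a) ≤ N) →
        (nonrigid T).Finite ∧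
          (nonrigid T).ncard ≤ max (4 * ((N - 1) / (p - 1) * N) + 1) p) ∧
      -- (7) the maximal pro-`p` Galois group of a field with small norm groups
      (∀ N : ℕ,
        (∀ a : Fˣ, a ∉ T → T.relIndex (normGroup p a) ≠ 0 ∧ T.relIndex (normGroup p a) ≤ N) →
        T ≠ ⊤ →
        (T.index = 0 ∨ (if p = 2 then 4 else if p = 3 then 2 else 1) * N ^ 2 ≤ T.index) →
        ∀ K : IntermediateField F (AlgebraicClosure F), IsMaximalPExtension p K →
          IsDecompositionGroup (⊤ : Subgroup (↥K ≃ₐ[F] ↥K)) ∧ ConclusionOfQ1 p K)) := by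
  have hp : p.Prime := Fact.out
  refine ⟨?_, ?_,
    fun R hR2 hR => Pool.Agent.V7H79.EU.nonrigid_sum hp.one_le T hT hneg R hR2 hR, ?_⟩
  · intro hfin h2
    obtain ⟨O, h3, -, -, h4, -⟩ := Pool.Agent.V7H42.ET.ring_exact hp hT hneg hfin h2
    exact ⟨O, h3, h4⟩
  · intro hp2 c hc1 hc
    obtain ⟨O, h1, h2, h3, -⟩ := Pool.Agent.V7H79.EW.one_rigid hp.one_le hT hneg hc
      (Pool.Agent.V7H79.EW.sq_ne hp hp2 (Pool.Agent.V7H42.ET.exp_of hT) hc1)
    refine ⟨O, ?_, h2, h3⟩
    rintro ⟨u, hu, e⟩
    exact h1 u hu e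
  intro hTp hζ
  have hgal : (∃ c : Fˣ ⧸ T, c ≠ 1 ∧ c ∉ nonrigid T) → T.index ≠ 2 →
      ∀ K : IntermediateField F (AlgebraicClosure F), IsMaximalPExtension p K →
        IsDecompositionGroup (⊤ : Subgroup (↥K ≃ₐ[F] ↥K)) ∧ ConclusionOfQ1 p K := by
    intro hex hidx K hK
    obtain ⟨O, h1, h4, h5⟩ := Pool.Agent.V7H79.EW.ring_one' hp hζ hTp hneg hex hidx
    have hpF : (p : F) ≠ 0 := by
      obtain ⟨ζ, hζ⟩ := hζ
      have : NeZero p := ⟨hp.ne_zero⟩
      exact hζ.neZero'.ne
    have hPw : Pw p O := by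
      refine ⟨h4, hpF, fun x hx hx' => ?_⟩
      obtain ⟨t, ht, e⟩ := h1 x hx hx'
      rw [hTp] at ht
      obtain ⟨y, rfl⟩ := ht
      exact ⟨y, by rw [← e]; simp⟩
    have hne : O.unitGroup ⊔ pwG F p ≠ ⊤ := by
      intro htop
      apply h5
      rw [hTp]
      exact htop
    have hD : DecInert F K := Pool.Agent.V7H51.NR.gal_main p hp F hζ O hPw hne K hK
    refine ⟨?_, efratP p F K hD⟩
    obtain ⟨Γ, hΓ, w, hw, σ, hσ, hσw⟩ := hD
    exact ⟨Γ, hΓ, w, fun τ => ⟨fun _ x => hw τ x, fun _ => trivial⟩, σ, trivial, hσ, hσw⟩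
  refine ⟨⟨⟨Subgroup.closure (nonrigid T), Set.ext fun c =>
      Pool.Agent.V7H79.EW.mem_closure hp hζ hTp hneg c⟩, ?_⟩, hgal, ?_, ?_⟩
  · intro h2
    obtain ⟨O, h3, h4, h5⟩ := Pool.Agent.V7H79.EW.ring_units hp hζ hTp hneg h2
    exact ⟨O, h3, h4, Set.ext h5⟩
  · intro N hN
    obtain ⟨h1, h2, -⟩ := Pool.Agent.V7H79.EW.nonrigid_norm_all hp hTp hneg hζ N hN
    exact ⟨h1, h2⟩
  · intro N hN hTtop hbig K hK
    obtain ⟨h1, h2, h3⟩ := Pool.Agent.V7H79.EW.nonrigid_norm_all hp hTp hneg hζ N hN
    have hpN := h3 hTtop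
    have h4 : (nonrigid T).ncard + 1 <
        (if p = 2 then 4 else if p = 3 then 2 else 1) * N ^ 2 :=
      Pool.Agent.V7H79.EW.cst_arith hp hpN h2
    have hex : ∃ c : Fˣ ⧸ T, c ≠ 1 ∧ c ∉ nonrigid T := by
      by_contra hc
      push Not at hc
      have h5 : (Set.univ : Set (Fˣ ⧸ T)) ⊆ insert 1 (nonrigid T) := by
        intro c _
        by_cases h6 : c = 1
        · exact Or.inl h6
        · exact Or.inr (hc c h6)
      have h6 : (Set.univ : Set (Fˣ ⧸ T)).Finite := (h1.insert 1).subset h5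
      have h7 : Nat.card (Fˣ ⧸ T) ≤ (nonrigid T).ncard + 1 := by
        rw [← Set.ncard_univ]
        exact (Set.ncard_le_ncard h5 (h1.insert 1)).trans (Set.ncard_insert_le _ _)
      have h8 : Nat.card (Fˣ ⧸ T) = T.index := rfl
      rcases hbig with h9 | h9
      · have h10 : Finite (Fˣ ⧸ T) := Set.finite_univ_iff.1 h6
        rw [h9] at h8
        exact Nat.card_pos.ne' h8
      · omega
    have hidx : T.index ≠ 2 := by
      intro h5
      have hp2 := hp.two_le
      rcases hbig with h9 | h9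
      · omega
      · by_cases h6 : p = 2
        · rw [if_pos h6, h5] at h9
          nlinarith
        · have h7 : ∃ n, T.index = p ^ n :=
            Pool.Agent.V7H42.ET.card_pow_top hp hT (by omega)
          obtain ⟨n, hn⟩ := h7
          rw [h5] at hn
          have h8 : p ∣ 2 := by
            rcases n with _ | n
            · rw [pow_zero] at hn
              omega
            · rw [hn, pow_succ]
              exact Dvd.intro_left _ rfl
          exact h6 ((Nat.prime_dvd_prime_iff_eq hp Nat.prime_two).1 h8)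
    exact hgal hex hidx K hK

end Pool.Agent.Results.MP_600e55_nt.NonrigidGroupH79
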