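import Mathlib
import Pool.Agent.Results.MP_600e55_nt.SymbolPartitions
import Pool.Agent.V7H55.ET2.Rcl

set_option autoImplicit false

/-! # MP_600e55_nt: every valuation and every ordering splits off an orthogonal summand

Let `p` be a prime, let `F` contain a primitive `p`-th root of unity, and let `F*/F*^p` be finite. A
valuation ring `O` is called admissible for a group `T`, `F*^p ≤ T ≤ F*`, if `p ∈ O*` and `O* T ≠ F*`.
The elements `a` and `b` of `F*` are orthogonal if `b` is a norm from `F(a^(1/p))`, that is, if the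
symbol `(a, b)` in `H²(G_F(p))` is zero. The local groups are the groups `(1 + m) F*^p`, where `O` is
admissible for `F*^p`, and, if `p = 2`, the groups of the positive elements of the orderings of `F`. Let
`B_1, …, B_k` be the minimal local groups. In general `k ≥ 0`, and every local group contains some `B_i`.

1. `F* = B_i B_i^⊥`: every class modulo `B_i` contains an element which is orthogonal to all elements of
   `B_i`. There is a closed subgroup `D_i` of type (ii) of Q1 (of order two if `B_i` belongs to an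
   ordering) in `G_F(p)` with fixed field `E_i`, such that `F*/F*^p → E_i*/E_i*^p` is onto with kernel
   `B_i / F*^p`, and restriction is a bijection from the Steinberg symbols of `E_i` to those of `F` which
   vanish on `B_i`. So every valuation with `p ∈ O*` and `O* F*^p ≠ F*`, and every ordering, yields an
   orthogonal summand of `F*/F*^p` of type (ii) or (iii).
2. `B_i B_j = F*` for `i ≠ j`, and `B_j^⊥ ≤ B_i` unless `[F* : B_i] = p` and `-1 ∈ B_i`, so the summands
   are independent and orthogonal to one another.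
3. Let `T` be generated by `F*^p` and all `B_i^⊥`. No valuation ring is admissible for `T`, no ordering
   is positive on `T`, and, if `p` is odd, the number of the Steinberg symbols which vanish on `T` is at
   most `p` to the power `∑_{j=3}^m min(j - 3, ⌊4j/5⌋ + 1) ≤ (m-2)(m-3)/2`, if `[F* : T] = p^m`.
4. Every norm residue symbol `c` of `F` is a sum of Steinberg symbols `d_i` which vanish on `B_i` and one
   which vanishes on `T`, and the terms are uniquely determined. (The norm residue symbols form the dual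
   of `K_2(F)/p`, so `K_2(F)/p` is the direct sum of the groups `K_2(E_i)/p` and of a quotient of
   `K_2(F)/p` with few elements.)
5. If `F*/F*^p` is not an orthogonal sum of two nontrivial subgroups, and if there is an admissible
   valuation ring, or `p = 2` and `F` is formally real, or if `p` is odd and `F` has more than
   `p ^ bound n` Steinberg symbols, `n` the dimension of `F*/F*^p`, then `G_F(p)` is the decomposition
   group of a valuation with nontrivial inertia, or `p = 2` and `G_F(p)` has order two, and the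
   conclusion of Q1 holds.

Outline of 1. Let `O` be admissible with `(1 + m) F*^p = B` minimal. For all `z ∈ m` with
`(1 + z O) F*^p = B`, the ring of the fractions with such denominators would be a ring with a smaller
group, if there were few of them; so they represent all classes modulo `F*^p`, and they are closed under
multiplication, since `1 + z² O ⊆ S` implies `1 + z O ⊆ S` for `S ≥ F*^p`. Let `g` be such an element in a
given class. The classes of `B` are represented by elements `a ∈ 1 + g² O`. Let `M` be generated by roots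
`α`, `α^p = a`, which are close to `1`, for an extension of `O`. Then `ε = ∏ (1 + α + … + α^(p-1)) / p` is
close to `1`, all the other conjugates of `ε` are close to `0`, and the norm of `1 - (1 - g) ε` from `M` to
`F` is in `g (1 + m)`; it is a norm from all the fields `F(a^(1/p))`. For an ordering with minimal cone `P`
the value group of its real place is `2`-divisible, so the classes of `P` are represented by elements `a`
whose real part is close to `1`, and the norm of `1 - 2 ∏ (1 + √a) / 2` is negative. For 2 one approximates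
for two incomparable valuation rings and computes the norm groups of ramified and unramified extensions
of degree `p`. The bound in 3 and the group `D_i` are from `V7H55/ET/{Count, Dec, Res}` and
`V7H55/ET2/{DecA, Rcl}`. -/

namespace Pool.Agent.Results.MP_600e55_nt.OrthogonalFactorsH55

open Pool.Agent.Results.MP_600e55_nt.SymbolPartitions (powers normGroup IsMaximalPExtension
  IsDecompositionGroup ConclusionOfQ1)
open Pool.Agent.V7H55.ET (Sym Adm)
open Pool.Agent.V7H55.ET2 (LG MG IsCone)

/-- `p` is a unit of `O` and `O* T ≠ F*` -/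
structure IsAdmissible (p : ℕ) {F : Type} [Field F] (T : Subgroup Fˣ) (O : ValuationSubring F) :
    Prop where
  inv_mem : (p : F)⁻¹ ∈ O
  ne_top : O.unitGroup ⊔ T ≠ ⊤

/-- the group `(1 + m) T`, `m` the maximal ideal of `O` -/
def near {F : Type} [Field F] (O : ValuationSubring F) (T : Subgroup Fˣ) : Subgroup Fˣ :=
  O.principalUnitGroup ⊔ T

/-- `P` is the group of the positive elements of an ordering of the field `F` -/
def IsPositiveCone {F : Type} [Field F] (P : Subgroup Fˣ) : Prop :=
  ∃ (_ : LinearOrder F) (_ : IsStrictOrderedRing F), ∀ x : Fˣ, x ∈ P ↔ (0 : F) < x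

/-- the local groups: the groups `(1 + m) F*^p`, `O` a valuation ring with `p ∈ O*` and
`O* F*^p ≠ F*`, and, if `p = 2`, the groups of the positive elements of the orderings of `F` -/
def localGroups (F : Type) [Field F] (p : ℕ) : Set (Subgroup Fˣ) :=
  {B | (∃ O : ValuationSubring F, IsAdmissible p (powers F p) O ∧ near O (powers F p) = B) ∨
    (p = 2 ∧ IsPositiveCone B)}

/-- the minimal local groups -/
def minimalGroups (F : Type) [Field F] (p : ℕ) : Set (Subgroup Fˣ) :=
  {B | B ∈ localGroups F p ∧ ∀ B' ∈ localGroups F p, B' ≤ B → B' = B}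

/-- the group of the elements which are orthogonal to `B`: they are norms from all the fields
`F(c^(1/p))`, `c ∈ B` -/
def orthogonal (p : ℕ) {F : Type} [Field F] (B : Subgroup Fˣ) : Subgroup Fˣ where
  carrier := {x | ∀ c ∈ B, c ∉ powers F p → x ∈ normGroup p c}
  mul_mem' := fun hx hy c hc h => mul_mem (hx c hc h) (hy c hc h)
  one_mem' := fun _ _ _ => one_mem _
  inv_mem' := fun hx c hc h => inv_mem (hx c hc h)

/-- the group generated by `F*^p` and the orthogonal groups of all minimal local groups -/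
def valued (F : Type) [Field F] (p : ℕ) : Subgroup Fˣ :=
  powers F p ⊔ ⨆ B ∈ minimalGroups F p, orthogonal p B

/-- the Steinberg symbols on `F` with values in `ℤ/p` which vanish on `T × F*`: the bimultiplicative
functions `c` with `c(x,y) = 0` if `x + y = 1` and `c(x,y) = 0` if `x ∈ T` -/
def symbols (p : ℕ) {F : Type} [Field F] (T : Subgroup Fˣ) : Set (Fˣ → Fˣ → ZMod p) :=
  {c | (∀ a b x : Fˣ, c (a * b) x = c a x + c b x) ∧
    (∀ x a b : Fˣ, c x (a * b) = c x a + c x b) ∧ (∀ x y : Fˣ, (x : F) + y = 1 → c x y = 0) ∧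
    ∀ x ∈ T, ∀ y, c x y = 0}

/-- the norm residue symbols: the bimultiplicative functions `c` with `c(x,y) = 0` if `y` is a norm
from `F(x^(1/p))` -/
def normSymbols (p : ℕ) (F : Type) [Field F] : Set (Fˣ → Fˣ → ZMod p) :=
  {c | (∀ a b x : Fˣ, c (a * b) x = c a x + c b x) ∧
    (∀ x a b : Fˣ, c x (a * b) = c x a + c x b) ∧
    ∀ x : Fˣ, x ∉ powers F p → ∀ y ∈ normGroup p x, c x y = 0}

/-- the restriction to `F` of a function of two variables on the intermediate field `E` -/
def restriction {p : ℕ} {F K : Type} [Field F] [Field K] [Algebra F K] (E : IntermediateField F K)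
    (c : (↥E)ˣ → (↥E)ˣ → ZMod p) : Fˣ → Fˣ → ZMod p :=
  fun x y => c (Units.map (algebraMap F E : F →* E) x) (Units.map (algebraMap F E : F →* E) y)

/-- `∑_{k=3}^m min(k - 3, ⌊4k/5⌋ + 1)`, at most `(m-2)(m-3)/2` -/
def bound (m : ℕ) : ℕ := ∑ k ∈ Finset.Icc 3 m, min (k - 3) (4 * k / 5 + 1)

/-- `F*/F*^p` is not the direct sum of two nontrivial subgroups `A`, `A'` such that all elements of
`A'` are norms from `F(a^(1/p))` for all `a ∈ A` -/
def Indecomposable (F : Type) [Field F] (p : ℕ) : Prop :=
  ∀ A A' : Subgroup Fˣ, powers F p ≤ A → powers F p ≤ A' → A ⊔ A' = ⊤ → A ⊓ A' = powers F p →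
    (∀ a ∈ A, a ∉ powers F p → A' ≤ normGroup p a) → A = powers F p ∨ A' = powers F p

lemma bound_eq (m : ℕ) : bound m = Pool.Agent.V7H55.ET.bnd 2 m := by
  unfold bound Pool.Agent.V7H55.ET.bnd
  have h : (2 - 1) * (2 - 2) / 2 = 0 := rfl
  rw [h, zero_add]
  apply Finset.sum_subset
  · intro k hk
    rw [Finset.mem_Icc] at hk ⊢
    omega
  · intro k hk hk'
    rw [Finset.mem_Icc] at hk hk'
    have : k = 2 := by omega
    subst this
    rfl

lemma card_symbols (p : ℕ) {F : Type} [Field F] (T : Subgroup Fˣ) :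
    (symbols p T).ncard = Nat.card (Sym p T) := by
  rw [← Nat.card_coe_set_eq]
  rfl

theorem result (p : ℕ) [Fact p.Prime] (F : Type) [Field F] (hζ : ∃ ζ : F, IsPrimitiveRoot ζ p)
    (hfin : (powers F p).index ≠ 0) :
    -- every local group contains a minimal one
    (∀ B ∈ localGroups F p, ∃ B' ∈ minimalGroups F p, B' ≤ B) ∧
    (∀ B ∈ minimalGroups F p,
      -- the orthogonal group of a minimal group
      B ≠ ⊤ ∧ B ⊔ orthogonal p B = ⊤ ∧
      -- different minimal groups
      (∀ B' ∈ minimalGroups F p, B' ≠ B →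
        B ⊔ B' = ⊤ ∧ (B.index ≠ p ∨ -1 ∉ B → orthogonal p B' ≤ B)) ∧
      -- the decomposition group, or the subgroup of order two
      ∀ K : IntermediateField F (AlgebraicClosure F), IsMaximalPExtension p K →
        ∃ D : Subgroup (↥K ≃ₐ[F] ↥K), IsClosed (D : Set (↥K ≃ₐ[F] ↥K)) ∧
          (IsDecompositionGroup D ∨ (p = 2 ∧ IsPositiveCone B ∧ Nat.card D = 2)) ∧
          ∃ E : IntermediateField F K, E = IntermediateField.fixedField D ∧
            (Units.map (algebraMap F E : F →* E)).range ⊔ powers E p = ⊤ ∧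
            (powers E p).comap (Units.map (algebraMap F E : F →* E)) = B ∧
            Set.BijOn (restriction E) (symbols p (powers E p)) (symbols p B)) ∧
    -- the remainder
    (∀ O : ValuationSubring F, ¬ IsAdmissible p (valued F p) O) ∧
    (p = 2 → ∀ P : Subgroup Fˣ, IsPositiveCone P → ¬ valued F p ≤ P) ∧
    (p ≠ 2 → ∀ m, (valued F p).index = p ^ m →
      (symbols p (valued F p)).ncard ≤ p ^ bound m) ∧
    -- the symbols
    (∃ s : Finset (Subgroup Fˣ), (∀ B, B ∈ s ↔ B ∈ minimalGroups F p) ∧
      (∀ c ∈ normSymbols p F, ∃ d : Subgroup Fˣ → Fˣ → Fˣ → ZMod p,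
        (∀ B ∈ s, d B ∈ symbols p B) ∧ c - ∑ B ∈ s, d B ∈ symbols p (valued F p)) ∧
      ∀ (d : Subgroup Fˣ → Fˣ → Fˣ → ZMod p) (e : Fˣ → Fˣ → ZMod p),
        (∀ B ∈ s, d B ∈ symbols p B) → e ∈ symbols p (valued F p) → ∑ B ∈ s, d B + e = 0 →
        e = 0 ∧ ∀ B ∈ s, d B = 0) ∧
    -- indecomposable fields
    (Indecomposable F p →
      ((localGroups F p).Nonempty ∨
        (p ≠ 2 ∧ ∀ n, (powers F p).index = p ^ n →
          p ^ bound n < (symbols p (powers F p)).ncard)) →
      ∀ K : IntermediateField F (AlgebraicClosure F), IsMaximalPExtension p K →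
        (IsDecompositionGroup (⊤ : Subgroup (↥K ≃ₐ[F] ↥K)) ∨
          (p = 2 ∧ Nat.card (↥K ≃ₐ[F] ↥K) = 2)) ∧ ConclusionOfQ1 p K) := by
  have hp : p.Prime := Fact.out
  obtain ⟨ζ, hζ⟩ := hζ
  have hadm : ∀ (T : Subgroup Fˣ) (O : ValuationSubring F), IsAdmissible p T O ↔ Adm p T O :=
    fun T O => ⟨fun h => ⟨h.1, h.2⟩, fun h => ⟨h.1, h.2⟩⟩
  have hLG : ∀ B, B ∈ localGroups F p ↔ B ∈ LG F p := by
    intro B
    constructor
    · rintro (⟨O, h1, rfl⟩ | h)
      · exact Or.inl ⟨O, (hadm _ O).1 h1, rfl⟩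
      · exact Or.inr h
    · rintro (⟨O, h1, rfl⟩ | h)
      · exact Or.inl ⟨O, (hadm _ O).2 h1, rfl⟩
      · exact Or.inr h
  have hMG : ∀ B, B ∈ minimalGroups F p ↔ B ∈ MG F p := by
    intro B
    constructor
    · rintro ⟨h1, h2⟩
      exact ⟨(hLG B).1 h1, fun B' h3 h4 => h2 B' ((hLG B').2 h3) h4⟩
    · rintro ⟨h1, h2⟩
      exact ⟨(hLG B).2 h1, fun B' h3 h4 => h2 B' ((hLG B').1 h3) h4⟩
  -- the finite set
  set s : Finset (Subgroup Fˣ) := (Pool.Agent.V7H55.ET2.finite_MG (F := F) (p := p) hfin).toFinset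
    with hs
  have hsB : ∀ B, B ∈ s ↔ B ∈ MG F p := fun B => by rw [hs, Set.Finite.mem_toFinset]
  have hval : valued F p = Pool.Agent.Y920.EP.pwG F p ⊔
      ⨆ B ∈ s, Pool.Agent.V7H55.ET.perp p B := by
    unfold valued
    change Pool.Agent.Y920.EP.pwG F p ⊔ ⨆ B ∈ minimalGroups F p, Pool.Agent.V7H55.ET.perp p B = _
    congr 1
    apply iSup_congr
    intro B
    refine iSup_congr_Prop (by rw [hMG, hsB]) fun _ => rfl
  have hpT : Pool.Agent.Y920.EP.pwG F p ≤ valued F p := le_sup_left
  have hperp : ∀ B ∈ MG F p, Pool.Agent.V7H55.ET.perp p B ≤ valued F p := fun B hB => by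
    rw [hval]
    exact le_sup_of_le_right (le_iSup₂_of_le B ((hsB B).2 hB) le_rfl)
  have hrest : ∀ O : ValuationSubring F, ¬ Adm p (valued F p) O :=
    Pool.Agent.V7H55.ET2.rest_not_adm' hp hζ hfin hpT hperp
  refine ⟨?_, ?_, ?_, ?_, ?_, ?_, ?_⟩
  · intro B hB
    obtain ⟨B', h1, h2⟩ := Pool.Agent.V7H55.ET2.exists_MG hfin ((hLG B).1 hB)
    exact ⟨B', (hMG B').2 h1, h2⟩
  · intro B hB
    have hB' := (hMG B).1 hB
    refine ⟨Pool.Agent.V7H55.ET2.LG.ne_top hB'.1,
      Pool.Agent.V7H55.ET2.MG.sup_perp hp hζ hfin hB', ?_, ?_⟩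
    · intro B₂ hB₂ hne
      exact ⟨Pool.Agent.V7H55.ET2.MG.sup hB' ((hMG B₂).1 hB₂) hne,
        fun hidx => Pool.Agent.V7H55.ET2.MG.perp_le hp hζ hB' ((hMG B₂).1 hB₂) hne hidx⟩
    · intro K hK
      rcases hB'.1 with ⟨O, hO, hOB⟩ | ⟨hp2, hcone⟩
      · subst hOB
        obtain ⟨D, h1, h2, h3, h4, h5⟩ := Pool.Agent.V7H55.ET2.dec_full' ⟨ζ, hζ⟩ hO.inv_mem
          hO.ne_top K hK
        exact ⟨D, h1, Or.inl h2, _, rfl, h3, h4, h5⟩
      · subst hp2
        obtain ⟨D, h1, h2, E, h3, h4, h5, h6⟩ := Pool.Agent.V7H55.ET2.cone_dec hcone K hK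
        exact ⟨D, h1, Or.inr ⟨rfl, hcone, h2⟩, E, h3, h4, h5, h6⟩
  · exact fun O hO => hrest O ((hadm _ O).1 hO)
  · intro hp2 P hP
    subst hp2
    exact Pool.Agent.V7H55.ET2.rest_not_cone hζ hfin hperp hP
  · intro hp2 m hm
    rw [card_symbols, bound_eq]
    exact Pool.Agent.V7H55.ET.rest_card hp2 hζ hfin hpT hrest hm
  · refine ⟨s, fun B => by rw [hsB, hMG], ?_, ?_⟩
    · intro c hc
      obtain ⟨d, h1, h2⟩ := Pool.Agent.V7H55.ET2.split_all' hζ hfin s hsB hc
      rw [← hval] at h2
      exact ⟨d, h1, h2⟩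
    · intro d e hd he h0
      rw [hval] at he
      exact Pool.Agent.V7H55.ET2.split_unique' hζ hfin s hsB hd he h0
  · intro hind hor K hK
    have hex : (LG F p).Nonempty := by
      rcases hor with ⟨B, hB⟩ | ⟨hp2, h⟩
      · exact ⟨B, (hLG B).1 hB⟩
      · by_contra hc
        rw [Set.not_nonempty_iff_eq_empty] at hc
        have hno : ∀ O : ValuationSubring F, ¬ Adm p (powers F p) O := fun O hO => by
          have h1 : Pool.Agent.V7H55.ET.near O (powers F p) ∈ LG F p := Or.inl ⟨O, hO, rfl⟩
          rw [hc] at h1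
          exact h1
        obtain ⟨n, hn⟩ := Pool.Agent.V7H55.ET.exists_index_pow hp (T := powers F p) le_rfl hfin
        have h1 := h n hn
        rw [card_symbols, bound_eq] at h1
        exact absurd (Pool.Agent.V7H55.ET.rest_card hp2 hζ hfin le_rfl hno hn) (not_le.2 h1)
    obtain ⟨B, hB⟩ := hex
    rcases Pool.Agent.V7H55.ET2.indec' hp hζ hfin hind hB with ⟨O, hO, hle⟩ | ⟨hp2, hcone⟩
    · obtain ⟨h1, h2⟩ := Pool.Agent.V7H55.ET2.conclusion' ⟨ζ, hζ⟩ hO.inv_mem
        (le_sup_left.trans hle.le) hO.ne_top K hK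
      exact ⟨Or.inl h1, h2⟩
    · subst hp2
      obtain ⟨h1, h2⟩ := Pool.Agent.V7H55.ET2.euclid hcone K hK
      exact ⟨Or.inr ⟨rfl, h1⟩, h2 _⟩

end Pool.Agent.Results.MP_600e55_nt.OrthogonalFactorsH55
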